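import Pool.Agent.W495.TC.Stms
import Pool.Agent.W547.LN.Closure

/-!
# TC-CLOS: kernels and Galois closures
-/

set_option autoImplicit false
set_option linter.unusedSectionVars false

namespace Pool.Agent.W101.TC

open NumberField Pool.Agent.H204R3.CM Pool.Agent.W547.KB Pool.Agent.W547.LD Module
  Pool.Agent.W495.TA Pool.Agent.W495.TB Pool.Agent.W495.TC

noncomputable section

/-- The combinatorial part. -/
theorem inj_of_wide {G X : Type} [Group G] [Finite X] [MulAction G X] (c : G)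
    (htr : ∀ x y : X, ∃ g : G, g • x = y) (hcard : Nat.card X ≤ 6) (f : X → G → ℤ)
    (h1 : ∀ (x : X) (g h : G), f (g • x) h = f x (h * g)) (h2 : ∀ x, f (c • x) = -f x)
    (hw : Wide f) : Function.Injective f ∧ ∃ x y, f x ≠ f y ∧ f x ≠ -f y ∧ -f x ≠ f x := by
  classical
  obtain ⟨x, y, hxy, hxy'⟩ := hw
  have hnz : ∀ z, f z ≠ 0 := by
    intro z hz
    have h3 : ∀ z', f z' = 0 := by
      intro z'
      obtain ⟨g, rfl⟩ := htr z z'
      funext h
      rw [h1, hz]
      rfl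
    exact hxy (by rw [h3 x, h3 y])
  have hneg : ∀ z, -f z ≠ f z := by
    intro z hz
    apply hnz z
    funext h
    have := congrFun hz h
    simp only [Pi.neg_apply, Pi.zero_apply] at this ⊢
    omega
  refine ⟨?_, x, y, hxy, hxy', hneg x⟩
  intro a b hab
  by_contra hne
  have := Fintype.ofFinite X
  have h3 := Finset.mul_card_image_le_card (Finset.univ : Finset X) (f := f) 2 (by
    intro S hS
    obtain ⟨z, -, rfl⟩ := Finset.mem_image.1 hS
    obtain ⟨g, hg⟩ := htr a z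
    have h4 : z ≠ g • b := by
      rw [← hg]
      intro h5
      exact hne (smul_left_cancel g h5)
    refine Finset.one_lt_card.2 ⟨z, ?_, g • b, ?_, h4⟩
    · exact Finset.mem_filter.2 ⟨Finset.mem_univ _, rfl⟩
    · refine Finset.mem_filter.2 ⟨Finset.mem_univ _, ?_⟩
      funext h
      rw [h1, ← hab, ← h1, hg])
  have h4 : ({f x, f y, -f x, -f y} : Finset (G → ℤ)) ⊆ Finset.univ.image f := by
    intro S hS
    simp only [Finset.mem_insert, Finset.mem_singleton] at hS
    rcases hS with rfl | rfl | rfl | rfl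
    · exact Finset.mem_image_of_mem _ (Finset.mem_univ _)
    · exact Finset.mem_image_of_mem _ (Finset.mem_univ _)
    · rw [← h2]; exact Finset.mem_image_of_mem _ (Finset.mem_univ _)
    · rw [← h2]; exact Finset.mem_image_of_mem _ (Finset.mem_univ _)
  have h5 : ({f x, f y, -f x, -f y} : Finset (G → ℤ)).card = 4 := by
    rw [Finset.card_insert_of_notMem, Finset.card_insert_of_notMem, Finset.card_insert_of_notMem,
      Finset.card_singleton]
    · rw [Finset.mem_singleton, neg_inj]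
      exact hxy
    · simp only [Finset.mem_insert, Finset.mem_singleton, not_or]
      refine ⟨fun h => hxy' ?_, fun h => hneg y h.symm⟩
      rw [h, neg_neg]
    · simp only [Finset.mem_insert, Finset.mem_singleton, not_or]
      exact ⟨hxy, fun h => hneg x h.symm, hxy'⟩
  have h6 := Finset.card_le_card h4
  rw [Finset.card_univ, ← Nat.card_eq_fintype_card] at h3
  omega

section

variable {p : ℕ} [Fact p.Prime] {ν : PadicAlgCl p ≃+* ℂ} {L : Type} [Field L] [NumberField L]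
  [IsCMField L] [IsGalois ℚ L] (j : L →+* ℂ) (A : CMPair)

theorem tf_smul (φ : A.E →+* L) (g h : L ≃ₐ[ℚ] L) :
    tf p ν j (hs A j (g • φ)) h = tf p ν j (hs A j φ) (h * g) := by
  classical
  unfold tf
  refine Finset.sum_congr rfl fun d _ => ?_
  have h1 : d * h ∈ hs A j (g • φ) ↔ d * (h * g) ∈ hs A j φ := by
    rw [← tr_hs, Comb.mem_tr, mul_assoc]
  by_cases hd : d ∈ Dec p ν j
  · rw [if_pos hd, if_pos hd]
    by_cases h2 : d * h ∈ hs A j (g • φ)
    · rw [if_pos h2, if_pos (h1.1 h2)]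
    · rw [if_neg h2, if_neg (fun h3 => h2 (h1.2 h3))]
  · rw [if_neg hd, if_neg hd]

theorem tf_cc (φ : A.E →+* L) :
    tf p ν j (hs A j (cc L • φ)) = -tf p ν j (hs A j φ) := by
  classical
  have h0 : hs A j (cc L • φ) = (hs A j φ)ᶜ := by
    rw [← tr_hs]
    exact Comb.tr_c (fun g => cc_comm j g) (isHalf_hs A j φ)
  funext σ
  rw [h0, Pi.neg_apply]
  unfold tf
  rw [← Finset.sum_neg_distrib]
  refine Finset.sum_congr rfl fun d _ => ?_
  by_cases hd : d ∈ Dec p ν j
  · rw [if_pos hd, if_pos hd]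
    by_cases h2 : d * σ ∈ hs A j φ
    · have h3 : d * σ ∉ (hs A j φ)ᶜ := fun h3 => h3 h2
      rw [if_pos h2, if_neg h3]
    · have h3 : d * σ ∈ (hs A j φ)ᶜ := h2
      rw [if_neg h2, if_pos h3, neg_neg]
  · rw [if_neg hd, if_neg hd, neg_zero]

theorem facts (hA : BigA A j) (h6 : finrank ℚ A.E ≤ 6)
    (hw : Wide fun φ : A.E →+* L => tf p ν j (hs A j φ)) :
    Function.Injective (fun φ : A.E →+* L => tf p ν j (hs A j φ)) ∧
      Function.Injective (hs A j : (A.E →+* L) → Set (L ≃ₐ[ℚ] L)) ∧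
      2 < (Set.range (hs A j : (A.E →+* L) → Set (L ≃ₐ[ℚ] L))).ncard := by
  have hc := Pool.Agent.W547.LN.card_hom A j hA
  have : Finite (A.E →+* L) := by
    apply Nat.finite_of_card_ne_zero
    rw [hc]
    exact Module.finrank_pos.ne'
  obtain ⟨h1, x, y, hxy, hxy', hx⟩ := inj_of_wide (G := L ≃ₐ[ℚ] L) (X := A.E →+* L) (cc L)
    (fun x y => Pool.Agent.W547.LN.exists_smul A x y) (by rw [hc]; exact h6)
    (fun φ => tf p ν j (hs A j φ)) (fun x g h => tf_smul j A x g h) (fun x => tf_cc j A x) hw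
  refine ⟨h1, ?_, ?_⟩
  · intro φ φ' h
    apply h1
    change tf p ν j (hs A j φ) = tf p ν j (hs A j φ')
    rw [h]
  · rw [Set.two_lt_ncard_iff (Set.toFinite _)]
    refine ⟨hs A j x, hs A j y, hs A j (cc L • x), ⟨x, rfl⟩, ⟨y, rfl⟩, ⟨_, rfl⟩, ?_, ?_, ?_⟩
    · intro h
      apply hxy
      change tf p ν j (hs A j x) = tf p ν j (hs A j y)
      rw [h]
    · intro h
      apply hx
      change -tf p ν j (hs A j x) = tf p ν j (hs A j x)
      rw [← tf_cc, ← h]
    · intro h
      apply hxy'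
      change tf p ν j (hs A j x) = -tf p ν j (hs A j y)
      rw [h, tf_cc, neg_neg]

theorem mem_ker (hinj : Function.Injective (hs A j : (A.E →+* L) → Set (L ≃ₐ[ℚ] L)))
    (hinj' : Function.Injective (fun φ : A.E →+* L => tf p ν j (hs A j φ))) (g : L ≃ₐ[ℚ] L) :
    g ∈ Comb.kerP (Set.range (hs A j : (A.E →+* L) → Set (L ≃ₐ[ℚ] L))) ↔
      ∀ φ : A.E →+* L, tf p ν j (hs A j (g • φ)) = tf p ν j (hs A j φ) := by
  constructor
  · intro h φ
    have h1 := h _ ⟨φ, rfl⟩
    rw [tr_hs] at h1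
    rw [h1]
  · intro h
    apply Pool.Agent.W547.LN.mem_kerP_of_fix
    intro φ
    exact hinj' (h φ)

end

theorem clos : S_clos := by
  intro p _ ν L _ _ _ _ j A B hA hB h6A h6B hwA hwB hk
  obtain ⟨a1, a2, a3⟩ := facts (p := p) (ν := ν) j A hA h6A hwA
  obtain ⟨b1, b2, b3⟩ := facts (p := p) (ν := ν) j B hB h6B hwB
  have hker : Comb.kerP (Set.range (hs A j : (A.E →+* L) → Set (L ≃ₐ[ℚ] L))) =
      Comb.kerP (Set.range (hs B j : (B.E →+* L) → Set (L ≃ₐ[ℚ] L))) := by
    ext g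
    rw [mem_ker (p := p) (ν := ν) j A a2 a1, mem_ker (p := p) (ν := ν) j B b2 b1]
    exact hk g
  refine ⟨le_antisymm ?_ ?_, fun hG => ?_⟩
  · exact Pool.Agent.W547.LN.normalClosure_le A B j hA a2 hker.ge
  · exact Pool.Agent.W547.LN.normalClosure_le B A j hB b2 hker.le
  · have hr := Pool.Agent.W547.LN.range_eq_of_galois A B j hA h6A a3 b3 hker hG
    obtain ⟨φ, -⟩ := hwA
    have h1 : hs A j φ ∈ Set.range (hs B j : (B.E →+* L) → Set (L ≃ₐ[ℚ] L)) := by
      rw [← hr]; exact ⟨φ, rfl⟩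
    obtain ⟨φ', hφ'⟩ := h1
    exact ⟨φ, φ', by rw [hφ']⟩

end

end Pool.Agent.W101.TC
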